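import Mathlib
import Pool.Agent.Caps.Defs
import Pool.Agent.CapFive.Spec
import Pool.Agent.CapFive.Conv
import Pool.Agent.CapFive.Prod
import Pool.Agent.CapFive.Ext
import Pool.Agent.CapFive.Key
import Pool.Agent.CapFive.PP
import Pool.Agent.CapFive.Arc
import Pool.Agent.CapFive.Base

/-! # Caps of `PG(5, q)` made of pairs of conjugate imaginary lines -/

namespace Pool.Agent.Results.MP_9c4077_co.ImaginaryLinePairs

open Pool.Agent.Caps

/-- Let `F` be a finite field with `q ≥ 4` elements, let `h = q + 1` for `q` odd and `h = q + 2` for `q` even, and let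
`s` be a natural number. Then `PG(3s+5,q)` contains a cap with exactly `q^(2s) h (q^2+q+1)` points, so
`m(3s+5,q)` is at least this number; the case `s = 0` is `PG(5,q)`. -/
theorem result (F : Type) [Field F] [Fintype F] (hq : 4 ≤ Fintype.card F) (h : ℕ)
    (hodd : Odd (Fintype.card F) → h = Fintype.card F + 1)
    (heven : Even (Fintype.card F) → h = Fintype.card F + 2) (s : ℕ) :
    (∃ K : Finset (Projectivization F (Fin (3 * s + 5 + 1) → F)), IsCap F (3 * s + 5) K ∧
      K.card = Fintype.card F ^ (2 * s) * (h * (Fintype.card F ^ 2 + Fintype.card F + 1))) ∧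
    Fintype.card F ^ (2 * s) * (h * (Fintype.card F ^ 2 + Fintype.card F + 1)) ≤
      capMax F (3 * s + 5) := by
  obtain ⟨h1, h2⟩ := Pool.Agent.CapFive.main Pool.Agent.CapFive.tConv Pool.Agent.CapFive.tProd
    Pool.Agent.CapFive.tExt Pool.Agent.CapFive.tArc
    (Pool.Agent.CapFive.tBase Pool.Agent.CapFive.tKey Pool.Agent.CapFive.tPair
      Pool.Agent.CapFive.tPlane) F s
  rcases Nat.even_or_odd (Fintype.card F) with he | ho
  · rw [heven he]
    exact h2 he hq
  · rw [hodd ho]
    refine h1 ho ?_
    obtain ⟨k, hk⟩ := ho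
    omega

end Pool.Agent.Results.MP_9c4077_co.ImaginaryLinePairs
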